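import Pool.Agent.H.MP_a29b63_ag.B

namespace Pool.Agent.Results.MP_a29b63_ag.NotLinear
open CategoryTheory MvPolynomial Pool.Agent.H.MP_a29b63_ag

universe u
variable {K : Type u} [Field K] {n : ℕ}

theorem even (hn : Even n) : HasProjectiveDimensionLT ((MM K).obj n) n := by
  have h1 : ∀ (i : Fin n) (p : P K n), Ideal.Quotient.mkₐ K (I K (Finset.univ.erase i))
      (Polynomial.aeval (X i : P K n) (pr i p)) = Ideal.Quotient.mkₐ K _ p := by
    intro i
    refine DFunLike.congr_fun (f := ((Ideal.Quotient.mkₐ K (I K (Finset.univ.erase i))).comp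
      (Polynomial.aeval (X i : P K n))).comp (pr i)) (MvPolynomial.algHom_ext fun k => ?_)
    simp only [AlgHom.comp_apply, pr_X]
    split_ifs with h
    · simp [h]
    · rw [map_zero, map_zero]
      exact (Ideal.Quotient.eq_zero_iff_mem.2 (Ideal.subset_span
        (Set.mem_image_of_mem _ (by simpa using h)))).symm
  let a : ∀ i, Ms K n →ₗ[P K n] (P K n ⧸ I K (Finset.univ.erase i)) := fun i =>
    { toFun w := Ideal.Quotient.mkₐ K _ (Polynomial.aeval (X i : P K n) (w.1.2 i))
      map_add' v w := by simp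
      map_smul' p w := by
        simp only [Submodule.coe_smul, smul2, map_mul, h1]; rfl }
  choose u hu using fun i : Fin n => S_surj hn (Pi.single i (1 : K))
  let v : Fin n → Ms K n := fun i => ⟨(u i, Pi.single i 1), fun k => by
    simp only [hu, Pi.single_apply]; split_ifs <;> simp⟩
  have v1 : ∀ i, (v i).1.1 = u i := fun _ => rfl
  have v2 : ∀ i, (v i).1.2 = Pi.single i 1 := fun _ => rfl
  let b : ∀ i, (P K n ⧸ I K (Finset.univ.erase i)) →ₗ[P K n] Ms K n := fun i =>
    (I K _).liftQ (LinearMap.toSpanSingleton _ _ (v i)) (Ideal.span_le.2 (by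
      rintro _ ⟨k, hk, rfl⟩
      refine Subtype.ext (W_ext (fun j => by simp) fun j => ?_)
      have : k ≠ i := by simpa using hk
      simp only [LinearMap.toSpanSingleton_apply, Submodule.coe_smul, smul2, pr_X, v2,
        Pi.single_apply]
      split_ifs with h1 h2 <;> simp_all))
  have hb : ∀ i p, b i (Ideal.Quotient.mkₐ K _ p) = p • v i := fun _ _ => rfl
  refine pd_lt (ModuleCat.of _ (Ms K n)) (fun i => ModuleCat.ofHom (a i))
    (fun i => ModuleCat.ofHom (b i)) ?_
  ext1
  refine LinearMap.ext fun w : Ms K n => ?_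
  rw [ModuleCat.hom_sum, LinearMap.sum_apply]
  change w = ∑ i, Polynomial.aeval (X i : P K n) (w.1.2 i) • v i
  refine (fun (h : ∀ w', ∑ i, Polynomial.aeval (X i : P K n) (w.1.2 i) • v i = w' → w = w') =>
    h _ rfl) fun w' hw => ?_
  have h3 : ∀ j, w.1.2 j = w'.1.2 j := fun j => by
    simp [← hw, sum2, v2, Pi.single_apply, pr_aeval]
  refine Subtype.ext (W_ext (fun j => ?_) h3)
  have h4 : w.1.1 - w'.1.1 = 0 := S_inj hn fun i => by
    have := w.2 i
    rw [h3, w'.2 i] at this
    simpa [S, mul_sub, sub_eq_zero] using this.symm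
  exact congrFun (sub_eq_zero.1 h4) j

theorem odd (hn : Odd n) : ¬ HasProjectiveDimensionLT ((MM K).obj n) n := by
  have : Finite (Fin 1 ↪o Fin n) := Finite.of_injective _ DFunLike.coe_injective
  have : Module.Finite (P K n) ((MM K).obj n) := by
    refine ⟨Submodule.fg_def.2 ⟨_, Set.Finite.subset ((Set.finite_range fun ε : Fin 1 ↪o Fin n =>
      (MM K).map ε (g1 K)).union (Set.finite_range fun ε : Fin 1 ↪o Fin n =>
        (MM K).map ε (g2 K))) ?_, MM_gen n⟩⟩
    rintro _ ⟨_, rfl | rfl, ε, rfl⟩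
    exacts [Or.inl ⟨ε, rfl⟩, Or.inr ⟨ε, rfl⟩]
  let w : Ms K n := ⟨(fun j => (-1) ^ (j : ℕ), 0), fun i => by simp [S_ker hn]⟩
  refine pd_ge _ (w := w) (fun h => ?_) fun k => Subtype.ext (W_ext (fun j => ?_) fun j => ?_)
  · have : ((-1 : K)) ^ 0 = 0 := congrArg (fun v : Ms K n => v.1.1 ⟨0, hn.pos⟩) h
    simp at this
  · change constantCoeff (X k : P K n) * _ = 0
    simp
  · exact mul_zero _

theorem result (K : Type u) [Field K] :
    ∃ M : OIMod K, (∃ G, G.Finite ∧ M.Generates G) ∧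
      (∀ n : ℕ, Even n → projectiveDimension (M.obj n) < n) ∧
      (∀ n : ℕ, Odd n → n ≤ projectiveDimension (M.obj n)) ∧
      ¬ ∃ (A B : ℤ) (N : ℕ), ∀ n ≥ N, ∃ d : ℕ,
        projectiveDimension (M.obj n) = d ∧ (d : ℤ) = A * n + B := by
  have h1 : ∀ n : ℕ, Even n → projectiveDimension ((MM K).obj n) < n := fun n hn =>
    projectiveDimension_lt_iff.2 (even hn)
  have h2 : ∀ n : ℕ, Odd n → n ≤ projectiveDimension ((MM K).obj n) := fun n hn =>
    (projectiveDimension_ge_iff _ _).2 (odd hn)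
  refine ⟨MM K, ⟨_, Set.toFinite _, MM_gen⟩, h1, h2, ?_⟩
  rintro ⟨A, B, N, h⟩
  have h3 : ∀ k ≥ N, A * (2 * k) + B < 2 * k := fun k hk => by
    obtain ⟨d, e1, e2⟩ := h (2 * k) (by omega)
    have := h1 (2 * k) (by simp)
    rw [e1] at this
    have : d < 2 * k := by exact_mod_cast this
    push_cast at e2; omega
  have h4 : ∀ k ≥ N, 2 * k + 1 ≤ A * (2 * k + 1) + B := fun k hk => by
    obtain ⟨d, e1, e2⟩ := h (2 * k + 1) (by omega)
    have := h2 (2 * k + 1) (by simp)
    rw [e1] at this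
    have : 2 * k + 1 ≤ d := by exact_mod_cast this
    push_cast at e2; omega
  have a1 := h3 N le_rfl
  have a2 := h4 N le_rfl
  have a3 := h3 (N + 1) (by omega)
  push_cast at a3
  nlinarith

end Pool.Agent.Results.MP_a29b63_ag.NotLinear
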